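import Pool.Agent.XW58.Final

/-!
# MP_0f76a4_ag: the weight-monodromy conjecture for the extreme monodromy degrees

`X` is a smooth rigid-analytic variety with a strictly semistable formal model, of relative dimension `d`, whose
special fibre is projective; `X` need not be algebraizable.  The dictionary between the Lean text and the
geometry is in `XW58/Defs.lean`.  In degree `w`, the conclusion of the conjecture holds on `gr^M_j` for all `j` with
`|j| ≥ min (w, 2d - w) - 1`, and in degree `d` also for `|j| = d - 2`.
-/

namespace Pool.Agent.Results.MP_0f76a4_ag.ExtremalWeights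

open XW58

theorem result (K : Type) [Field K] [Algebra ℚ K] (d : ℕ)
    (C : Type) [AddCommGroup C] [Module K C] [Module ℚ C] [IsScalarTower ℚ K C]
    (X : Fibre K d C) (q : ℕ) (w : ℤ)
    (V : Type) [AddCommGroup V] [Module K V] [FiniteDimensional K V] (T : Abutment X q w V)
    (M : ℤ → Submodule K V) (hM : IsMonodromyFilt T.N M) (j : ℤ)
    (hj : min w (2 * (d : ℤ) - w) - 1 ≤ |j| ∨ w = d ∧ (d : ℤ) - 2 ≤ |j|)
    (x : K) (hx : HasGrEigenvalue T.F M j x) : IsWeil q (w + j) x :=
  extremal_weights T M hM j hj x hx

end Pool.Agent.Results.MP_0f76a4_ag.ExtremalWeights
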