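import Pool.Agent.GEN43.Final

/-!
# MP_0f76a4_ag: the weight-monodromy conjecture for varieties with cohomology generated in small dimension

`X` is a smooth proper rigid-analytic variety of dimension `d`, with cohomology ring `R`.  If the part of weight `< n`
of `H^n(X_C)` is spanned by products of classes of the kind `Gen` (classes of weight `n` killed by `N`; images of
classes in `H^w(Z_C)`, where `Z` has a strictly semistable formal model with projective special fibre and the
weight-monodromy property is known in the necessary range, e.g. `dim Z ≤ 2` or `w ≤ 1`; images of such products on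
other varieties), for `n = i` and `n = 2d - i`, then the weight-monodromy conjecture holds for `H^i(X_C)`.
The dictionary between the Lean text and the geometry is in `GEN43/Ring.lean` and `XW58/Defs.lean`.
-/

namespace Pool.Agent.Results.MP_0f76a4_ag.GeneratedPure

open XW58 GEN43

theorem result (K : Type) [Field K] [Algebra ℚ K] [IsAlgClosed K] (q d : ℕ) (hq : 1 < q)
    (A : Type) [Ring A] [Algebra K A] [FiniteDimensional K A] (R : CohRing K q d A)
    (i : ℕ) (hi : i ≤ 2 * d) (h1 : Low R i ≤ Submodule.span K {a | Gen R i a})
    (h2 : Low R (2 * d - i) ≤ Submodule.span K {a | Gen R (2 * d - i) a}) :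
    WM q i (R.FH i) (R.NH i) :=
  generated hq R i hi h1 h2

end Pool.Agent.Results.MP_0f76a4_ag.GeneratedPure
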