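import Pool.Agent.XH84.Final

/-!
# MP_0f76a4_ag: the next monodromy degree; threefolds

`X` is a smooth rigid-analytic variety with a strictly semistable formal model, of relative dimension `d`, whose
special fibre is projective; `X` need not be algebraizable.  The dictionary between the Lean text and the geometry
is in `XW58/Defs.lean`.  `ExtremalWeights` treats `|j| ≥ min (w, 2d - w) - 1`, and `|j| ≥ d - 2` for `w = d`; here
are `|j| = min (w, 2d - w) - 2` under the condition `Pol3` (true if `b_1(Y^(k+1)) = 0` or `b_3(Y^(k)) = 0`, see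
`pol3_of_zero`, `pol3_of_zero'`) and `|j| = d - 3` for `w = d` under the condition `Trans` (for instance: `H^2` of the
strata of dimension three is spanned by the classes of divisors).
-/

namespace Pool.Agent.Results.MP_0f76a4_ag.MiddleDegree

open XW58

theorem result (K : Type) [Field K] [Algebra ℚ K] (d : ℕ)
    (C : Type) [AddCommGroup C] [Module K C] [Module ℚ C] [IsScalarTower ℚ K C]
    (X : Fibre K d C) (q : ℕ) (w : ℤ)
    (V : Type) [AddCommGroup V] [Module K V] [FiniteDimensional K V] (T : Abutment X q w V)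
    (M : ℤ → Submodule K V) (hM : IsMonodromyFilt T.N M) (k : ℕ)
    (h : (min w (2 * (d : ℤ) - w) = k + 2 ∧ X.Pol3 k) ∨
      (w = d ∧ k + 3 = d ∧ X.Div k ∧ ∃ R : Submodule K C, X.Trans k R))
    (j : ℤ) (hj : |j| = k) (x : K) (hx : HasGrEigenvalue T.F M j x) : IsWeil q (w + j) x := by
  rcases h with ⟨h1, h2⟩ | ⟨h1, h2, h3, R, h4⟩
  · exact low_weights T M hM k h1 h2 j hj.ge x hx
  · exact mid_weights T M hM k h2 h3 R h4 h1 j hj.ge x hx

end Pool.Agent.Results.MP_0f76a4_ag.MiddleDegree
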