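import Pool.Agent.TD60.FamThm

/-!
# MP_0f76a4_ag: weight-monodromy from polarized data on the strata of the reduction

Dictionary (geometry, not part of the Lean text).

* `X` is a smooth rigid-analytic variety of dimension `n` with a strictly semistable formal model whose special fibre
  `Y` is projective over `k`; `X` need not be algebraic.  `Y^(k)` is the disjoint union of the intersections of
  `k + 1` components of `Y`.
* `Datum n` (file `TD60/Datum.lean`): `A k p = A^p(Y^(k))_ℚ`, the cycle classes in the cohomology of `Y^(k)` (over the
  algebraic closure of `k`); `L` is the class of an ample line bundle on `Y`, `ρ` and `γ` are the alternating sums of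
  the restriction and of the Gysin maps, `Q` the intersection pairing, `HL` hard Lefschetz and `HR` the Hodge-Riemann
  relations for the strata.  More generally, for a simple object `T` of weight `w` (e.g. a simple abelian variety,
  `w = 1`), `A k p = Hom (T (-p), h^(2p + w) (Y^(k)))` is a `Datum (n - w)`: the pairing is
  `(f, g) ↦ tr (f^† g)` for a polarization of `T`, and `HR` is the positivity of the Rosati involution.
* `total K T` (file `TD60/FamDef.lean`): the `E₂`-term of the weight spectral sequence of Rapoport-Zink with
  coefficients in `K` (e.g. an algebraic closure of `ℚ_ℓ`) if its `E₁`-term (or a power of it) is the sum of the pieces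
  `Hom (T a, ...) ⊗ K`.  The spectral sequence depends only on the formal model and degenerates; split by the weights
  of a geometric Frobenius lift `F`, `H^i(X_C)` is `(total K T).deg i`, and `gr r w` is its part of weight `w`.
-/

noncomputable section

namespace Pool.Agent.Results.MP_0f76a4_ag.SemistableWM

theorem result (K : Type) [Field K] [Algebra ℚ K] (T : TD60.Family) (q : ℕ)
    (F : (TD60.total K T).H →ₗ[K] (TD60.total K T).H)
    (hF : ∀ r w x, x ∈ (TD60.total K T).gr r w → F x ∈ (TD60.total K T).gr r w)
    (hFw : ∀ (r : ℤ) (w : ℕ) (c : K), (∃ x ∈ (TD60.total K T).gr r w, x ≠ 0 ∧ F x = c • x) →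
      TD60.IsWeilNumber q w c) (i : ℤ) :
    (∃! M, TD60.IsMonodromyFiltration (TD60.total K T).N ((TD60.total K T).deg i) M) ∧
    ∀ M, TD60.IsMonodromyFiltration (TD60.total K T).N ((TD60.total K T).deg i) M →
      ∀ (j : ℤ) (c : K), TD60.IsEigenvalueOnGr F M j c → TD60.IsWeilNumber q (i + j) c := by
  refine ⟨?_, fun M hM j c hc => TD60.total_weight_monodromy K T q F hF hFw i M hM j c hc⟩
  obtain ⟨M, hM⟩ := TD60.total_exists_mon K T i
  exact ⟨M, hM, fun M' hM' => hM'.unique hM⟩

end Pool.Agent.Results.MP_0f76a4_ag.SemistableWM
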